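import Mathlib

/-! # A min-max theorem for finite families of arcs of a circle (lifted to the line) -/

namespace Y930.Sail

open Finset

section greedy

variable {ι : Type*} {N : Finset ι} (hN : N.Nonempty) (l r : ι → ℝ)

/-- the end of the first arc that begins at or after `x` -/
noncomputable def g (x : ℝ) : ℝ := N.inf' hN (fun z => r z + ⌈x - l z⌉)

lemma g_spec (x : ℝ) : ∃ z ∈ N, ∃ j : ℤ, g hN l r x = r z + j ∧ x ≤ l z + j := by
  obtain ⟨z, hz, h⟩ := Finset.exists_mem_eq_inf' hN (fun z => r z + (⌈x - l z⌉ : ℝ))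
  exact ⟨z, hz, ⌈x - l z⌉, h, by linarith [Int.le_ceil (x - l z)]⟩

lemma g_le {x : ℝ} {z : ι} (hz : z ∈ N) {j : ℤ} (h : x ≤ l z + j) : g hN l r x ≤ r z + j := by
  refine (Finset.inf'_le _ hz).trans ?_
  have h1 : ⌈x - l z⌉ ≤ j := Int.ceil_le.mpr (by linarith)
  have h2 : ((⌈x - l z⌉ : ℤ) : ℝ) ≤ j := by exact_mod_cast h1
  linarith

lemma g_mono : Monotone (g hN l r) := by
  intro x y hxy
  obtain ⟨z, hz, j, h1, h2⟩ := g_spec hN l r y
  rw [h1]
  exact g_le hN l r hz (hxy.trans h2)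

lemma g_gt (hlr : ∀ z ∈ N, l z < r z) (x : ℝ) : x < g hN l r x := by
  obtain ⟨z, hz, j, h1, h2⟩ := g_spec hN l r x
  rw [h1]
  linarith [hlr z hz]

lemma iter_strictMono (hlr : ∀ z ∈ N, l z < r z) (x : ℝ) :
    StrictMono (fun i : ℕ => (g hN l r)^[i] x) := by
  refine strictMono_nat_of_lt_succ fun i => ?_
  rw [Function.iterate_succ_apply']
  exact g_gt hN l r hlr _

lemma iter_lt {k : ℕ}
    (hnot : ∀ y : Fin k → ℝ, ∃ z ∈ N, ∀ i, ∀ j : ℤ, ¬ (l z + j < y i ∧ y i < r z + j)) (x : ℝ) :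
    (g hN l r)^[k] x < x + 1 := by
  by_contra hcon
  push Not at hcon
  set X : ℕ → ℝ := fun i => (g hN l r)^[i] x with hX
  have hXs : ∀ i, X (i + 1) = g hN l r (X i) := fun i => Function.iterate_succ_apply' _ _ _
  have hex : ∀ i : Fin k, ∃ y : ℝ, (∀ z ∈ N, l z + ⌈X (i + 1) - l z⌉ - 1 < y) ∧ y < X (i + 1) := by
    intro i
    have h1 : N.sup' hN (fun z => l z + (⌈X (i + 1) - l z⌉ : ℝ) - 1) < X (i + 1) := by
      rw [Finset.sup'_lt_iff]
      intro z _
      have := Int.ceil_lt_add_one (X (i + 1) - l z)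
      linarith
    obtain ⟨y, hy1, hy2⟩ := exists_between h1
    exact ⟨y, fun z hz => (Finset.le_sup' (fun z => l z + (⌈X (i + 1) - l z⌉ : ℝ) - 1) hz).trans_lt
      hy1, hy2⟩
  choose y hy1 hy2 using hex
  obtain ⟨z, hz, hzy⟩ := hnot y
  obtain ⟨j, hj⟩ : ∃ j : ℤ, j = ⌈x - l z⌉ := ⟨_, rfl⟩
  have hj1 : x ≤ l z + j := by rw [hj]; linarith [Int.le_ceil (x - l z)]
  have hj2 : l z + j < x + 1 := by rw [hj]; linarith [Int.ceil_lt_add_one (x - l z)]
  classical
  have hexi : ∃ i, l z + j < X i := ⟨k, hj2.trans_le hcon⟩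
  obtain ⟨i, hi, hmin⟩ : ∃ i, l z + j < X i ∧ ∀ i' < i, ¬ l z + j < X i' :=
    ⟨Nat.find hexi, Nat.find_spec hexi, fun i' h => Nat.find_min hexi h⟩
  have hi0 : i ≠ 0 := by
    rintro rfl
    have : X 0 = x := rfl
    rw [this] at hi
    linarith
  obtain ⟨i', rfl⟩ := Nat.exists_eq_succ_of_ne_zero hi0
  have hik : i' < k := by
    by_contra hc
    push Not at hc
    exact hmin k (by omega) (hj2.trans_le hcon)
  have h1 : X i' ≤ l z + j := not_lt.mp (hmin i' (by omega))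
  have h2 : X (i' + 1) ≤ r z + j := by rw [hXs]; exact g_le hN l r hz h1
  have h3 := hy1 ⟨i', hik⟩ z hz
  have h4 := hy2 ⟨i', hik⟩
  simp only at h3 h4
  refine hzy ⟨i', hik⟩ j ⟨?_, h4.trans_le h2⟩
  have h5 : j + 1 ≤ ⌈X (i' + 1) - l z⌉ := by
    rw [Int.add_one_le_iff, Int.lt_ceil]
    have : l z + j < X (i' + 1) := hi
    linarith
  have h6 : (j : ℝ) + 1 ≤ ⌈X (i' + 1) - l z⌉ := by exact_mod_cast h5
  linarith

lemma iter_mul_lt {k : ℕ} (hlt : ∀ x, (g hN l r)^[k] x < x + 1) (x : ℝ) (q : ℕ) :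
    (g hN l r)^[k * (q + 1)] x < x + (q + 1) := by
  induction q with
  | zero => simpa using hlt x
  | succ q ih =>
    rw [show k * (q + 1 + 1) = k + k * (q + 1) by ring, Function.iterate_add_apply]
    have h1 := hlt ((g hN l r)^[k * (q + 1)] x)
    push_cast
    linarith

end greedy

/-- **Round-up theorem.** If `k` points do not pierce all the open arcs `(l z, r z)` (mod `1`),
`z ∈ N`, then some subfamily `S` has more than `k q` members although every point lies in at most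
`q` of them. -/
theorem roundup {ι : Type*} [DecidableEq ι] (N : Finset ι) (l r : ι → ℝ)
    (hlr : ∀ z ∈ N, l z < r z) (k : ℕ)
    (hnot : ∀ y : Fin k → ℝ, ∃ z ∈ N, ∀ i, ∀ j : ℤ, ¬ (l z + j < y i ∧ y i < r z + j)) :
    ∃ S ⊆ N, ∃ q : ℕ, k * q < S.card ∧
      ∀ y : ℝ, ∀ F ⊆ S, (∀ z ∈ F, ∃ j : ℤ, l z + j < y ∧ y < r z + j) → F.card ≤ q := by
  classical
  have hN : N.Nonempty := by
    obtain ⟨z, hz, -⟩ := hnot (fun _ => 0)
    exact ⟨z, hz⟩
  obtain ⟨X, hX⟩ : ∃ X : ℕ → ℝ, X = fun i => (g hN l r)^[i] 0 := ⟨_, rfl⟩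
  have hXs : ∀ i, X (i + 1) = g hN l r (X i) := fun i => by
    rw [hX]; exact Function.iterate_succ_apply' _ _ _
  have hmono : StrictMono X := by rw [hX]; exact iter_strictMono hN l r hlr 0
  have hspec : ∀ i, ∃ z ∈ N, ∃ j : ℤ, X (i + 1) = r z + j ∧ X i ≤ l z + j := by
    intro i; rw [hXs]; exact g_spec hN l r (X i)
  choose c hc J hJ1 hJ2 using hspec
  -- first repetition
  have hrep : ∃ i2, ∃ i1 < i2, c i1 = c i2 := by
    have hfin : ¬ Function.Injective c := by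
      intro hinj
      have h1 : Set.Infinite (Set.range c) := Set.infinite_range_of_injective hinj
      exact h1 (N.finite_toSet.subset (by rintro _ ⟨i, rfl⟩; exact hc i))
    simp only [Function.Injective] at hfin
    push Not at hfin
    obtain ⟨a, b, hab, hne⟩ := hfin
    rcases lt_or_gt_of_ne hne with h | h
    · exact ⟨b, a, h, hab⟩
    · exact ⟨a, b, h, hab.symm⟩
  obtain ⟨i2, ⟨i1, hi, hcc⟩, hmin⟩ : ∃ i2, (∃ i1 < i2, c i1 = c i2) ∧
      ∀ t < i2, ¬ ∃ i1 < t, c i1 = c t :=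
    ⟨Nat.find hrep, Nat.find_spec hrep, fun t h => Nat.find_min hrep h⟩
  have hinj : Set.InjOn c (Finset.Ioc i1 i2 : Finset ℕ) := by
    have key : ∀ s t : ℕ, i1 < s → s < t → t ≤ i2 → c s ≠ c t := by
      intro s t h1 h2 h3 h4
      rcases h3.lt_or_eq with h5 | h5
      · exact hmin t h5 ⟨s, h2, h4⟩
      · subst h5
        exact hmin s h2 ⟨i1, h1, hcc.trans h4.symm⟩
    intro s hs t ht hst
    simp only [Finset.coe_Ioc, Set.mem_Ioc] at hs ht
    rcases lt_trichotomy s t with h | h | h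
    · exact (key s t hs.1 h ht.2 hst).elim
    · exact h
    · exact (key t s ht.1 h hs.2 hst.symm).elim
  -- the number of turns
  have hturn : X (i2 + 1) = X (i1 + 1) + ((J i2 - J i1 : ℤ) : ℝ) := by
    have h1 := hJ1 i1
    have h2 := hJ1 i2
    rw [hcc] at h1
    push_cast
    linarith
  have hqpos : 0 < J i2 - J i1 := by
    have h1 : X (i1 + 1) < X (i2 + 1) := hmono (by omega)
    rw [hturn] at h1
    have h2 : (0 : ℝ) < ((J i2 - J i1 : ℤ) : ℝ) := by linarith
    exact_mod_cast h2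
  obtain ⟨q, hq⟩ : ∃ q : ℕ, J i2 - J i1 = (q : ℤ) + 1 := ⟨(J i2 - J i1 - 1).toNat, by omega⟩
  have hturn' : X (i2 + 1) = X (i1 + 1) + (q + 1) := by
    rw [hturn, hq]; push_cast; ring
  refine ⟨(Finset.Ioc i1 i2).image c, ?_, q + 1, ?_, ?_⟩
  · intro z hz
    rw [Finset.mem_image] at hz
    obtain ⟨s, -, rfl⟩ := hz
    exact hc s
  · rw [Finset.card_image_of_injOn hinj, Nat.card_Ioc]
    have h1 := iter_mul_lt hN l r (iter_lt hN l r hnot) (X (i1 + 1)) q
    have h2 : (g hN l r)^[k * (q + 1)] (X (i1 + 1)) = X (k * (q + 1) + (i1 + 1)) := by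
      rw [hX]; simp only; rw [← Function.iterate_add_apply]
    rw [h2, ← hturn'] at h1
    have := hmono.lt_iff_lt.mp h1
    omega
  · intro y F hF hy
    -- choose indices
    have hidx : ∀ z : F, ∃ s, s ∈ Finset.Ioc i1 i2 ∧ c s = z.1 ∧
        ∃ t : ℤ, X s < y + t ∧ y + t < X (s + 1) := by
      intro z
      obtain ⟨s, hs, hsz⟩ := Finset.mem_image.mp (hF z.2)
      obtain ⟨j, hj1, hj2⟩ := hy z.1 z.2
      refine ⟨s, hs, hsz, J s - j, ?_, ?_⟩
      · have := hJ2 s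
        rw [hsz] at this
        push_cast
        linarith
      · have := hJ1 s
        rw [hsz] at this
        push_cast
        linarith
    choose s hs hsz t ht1 ht2 using hidx
    have htm : ∀ z, t z ∈ Finset.Icc (⌊X (i1 + 1) - y⌋ + 1) (⌊X (i1 + 1) - y⌋ + (q + 1)) := by
      intro z
      have h1 := Finset.mem_Ioc.mp (hs z)
      have h2 : X (i1 + 1) ≤ X (s z) := hmono.monotone (by omega)
      have h3 : X (s z + 1) ≤ X (i2 + 1) := hmono.monotone (by omega)
      have h4 := ht1 z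
      have h5 := ht2 z
      rw [Finset.mem_Icc]
      constructor
      · rw [Int.add_one_le_iff, Int.floor_lt]
        linarith
      · have h6 := Int.lt_floor_add_one (X (i1 + 1) - y)
        have h7 : ((t z : ℤ) : ℝ) < ((⌊X (i1 + 1) - y⌋ + (q + 1) + 1 : ℤ) : ℝ) := by
          push_cast
          linarith
        have h8 : t z < ⌊X (i1 + 1) - y⌋ + (q + 1) + 1 := by exact_mod_cast h7
        omega
    have htinj : Function.Injective t := by
      intro z w hzw
      have a1 := ht1 z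
      have a2 := ht2 z
      have b1 := ht1 w
      have b2 := ht2 w
      rw [hzw] at a1 a2
      have h1 : s z < s w + 1 := hmono.lt_iff_lt.mp (a1.trans b2)
      have h2 : s w < s z + 1 := hmono.lt_iff_lt.mp (b1.trans a2)
      have h3 : s z = s w := by omega
      apply Subtype.ext
      rw [← hsz z, ← hsz w, h3]
    have hcard : (Finset.univ : Finset F).card ≤
        (Finset.Icc (⌊X (i1 + 1) - y⌋ + 1) (⌊X (i1 + 1) - y⌋ + (q + 1))).card :=
      Finset.card_le_card_of_injOn t (fun z _ => htm z) (htinj.injOn)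
    simpa using hcard

/-- an open periodic set of directions, convex and without antipodal points, is an arc -/
theorem exists_arc {U : Set ℝ} (ho : IsOpen U) (hne : U.Nonempty) (hper : ∀ s, s ∈ U ↔ s + 1 ∈ U)
    (hanti : ∀ s ∈ U, s + 1 / 2 ∉ U)
    (hconv : ∀ s ∈ U, ∀ t ∈ U, ∀ x, s ≤ x → x ≤ t → t - s < 1 / 2 → x ∈ U) :
    ∃ l r : ℝ, l < r ∧ ∀ s, s ∈ U ↔ ∃ j : ℤ, l + j < s ∧ s < r + j := by
  obtain ⟨θ, hθ⟩ := hne
  have hperZ : ∀ (j : ℤ) (s : ℝ), s ∈ U ↔ s + j ∈ U := by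
    intro j
    induction j using Int.induction_on with
    | zero => intro s; simp
    | succ n ih =>
      intro s
      rw [ih s, hper (s + ((n : ℤ) : ℝ))]
      push_cast
      rw [add_assoc]
    | pred n ih =>
      intro s
      rw [ih s, hper (s + ((-n - 1 : ℤ) : ℝ))]
      push_cast
      ring_nf
  have hm : θ - 1 / 2 ∉ U := by
    intro h
    have := hanti _ h
    rw [sub_add_cancel] at this
    exact this hθ
  set C : Set ℝ := U ∩ Set.Ioo (θ - 1 / 2) (θ + 1 / 2) with hC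
  have hCo : IsOpen C := ho.inter isOpen_Ioo
  have hCne : C.Nonempty := ⟨θ, hθ, by constructor <;> linarith⟩
  have hoc : C.OrdConnected := by
    constructor
    intro s hs t ht x hx
    obtain ⟨hs1, hs2, hs3⟩ := hs
    obtain ⟨ht1, ht2, ht3⟩ := ht
    obtain ⟨hx1, hx2⟩ := hx
    refine ⟨?_, by linarith, by linarith⟩
    rcases le_total x θ with h | h
    · exact hconv s hs1 θ hθ x hx1 h (by linarith)
    · exact hconv θ hθ t ht1 x h hx2 (by linarith)
  have hb1 : BddBelow C := ⟨θ - 1 / 2, fun s hs => hs.2.1.le⟩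
  have hb2 : BddAbove C := ⟨θ + 1 / 2, fun s hs => hs.2.2.le⟩
  have hsub : Set.Ioo (sInf C) (sSup C) ⊆ C := IsConnected.Ioo_csInf_csSup_subset ⟨hCne, hoc.isPreconnected⟩ hb1 hb2
  have hsup : ∀ s ∈ C, sInf C < s ∧ s < sSup C := by
    intro s hs
    obtain ⟨a, b, hab, hsub'⟩ := mem_nhds_iff_exists_Ioo_subset.mp (hCo.mem_nhds hs)
    constructor
    · have h1 : (a + s) / 2 ∈ C := hsub' ⟨by linarith [hab.1], by linarith [hab.1, hab.2]⟩
      have := csInf_le hb1 h1
      linarith [hab.1]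
    · have h1 : (s + b) / 2 ∈ C := hsub' ⟨by linarith [hab.1, hab.2], by linarith [hab.2]⟩
      have := le_csSup hb2 h1
      linarith [hab.2]
  refine ⟨sInf C, sSup C, ?_, fun s => ⟨fun hs => ?_, ?_⟩⟩
  · obtain ⟨s, hs⟩ := hCne
    exact (hsup s hs).1.trans (hsup s hs).2
  · obtain ⟨j, hj⟩ : ∃ j : ℤ, j = ⌊s - (θ - 1 / 2)⌋ := ⟨_, rfl⟩
    have h1 := Int.floor_le (s - (θ - 1 / 2))
    have h2 := Int.lt_floor_add_one (s - (θ - 1 / 2))
    rw [← hj] at h1 h2
    have h3 : s - j ∈ U := by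
      rw [hperZ j (s - j)]
      simpa using hs
    have h4 : s - j ≠ θ - 1 / 2 := fun h => hm (h ▸ h3)
    have h5 : s - j ∈ C := ⟨h3, lt_of_le_of_ne (by linarith) (Ne.symm h4), by linarith⟩
    obtain ⟨h6, h7⟩ := hsup _ h5
    exact ⟨j, by linarith, by linarith⟩
  · rintro ⟨j, h1, h2⟩
    have h3 : s - j ∈ C := hsub ⟨by linarith, by linarith⟩
    have h4 := h3.1
    rw [hperZ j (s - j)] at h4
    simpa using h4

end Y930.Sail
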