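import Mathlib
import Pool.Agent.H230R2.Sail.General3
import Pool.Agent.Y930.Sail.Arcs

/-! # The arcs of directions that cut off an integer point -/

namespace Y930.Sail

open H230R2.Sail Real

variable {n : ℕ}

/-- the unit vector of direction `2 π s` -/
noncomputable def unit (s : ℝ) : ℝ × ℝ := (cos (2 * π * s), sin (2 * π * s))

/-- the directions that cut off `z` -/
def arc (v : ZMod n → ℤ × ℤ) (z : ℤ × ℤ) : Set ℝ :=
  {s | ∀ k, dot (unit s) (toR (v k)) < dot (unit s) (toR z)}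

lemma unit_add_one (s : ℝ) : unit (s + 1) = unit s := by
  unfold unit
  rw [show 2 * π * (s + 1) = 2 * π * s + 2 * π by ring, cos_add_two_pi, sin_add_two_pi]

lemma dot_unit_half (s : ℝ) (x : ℝ × ℝ) : dot (unit (s + 1 / 2)) x = -dot (unit s) x := by
  unfold unit dot
  rw [show 2 * π * (s + 1 / 2) = 2 * π * s + π by ring, cos_add_pi, sin_add_pi]
  ring

lemma dot_unit_comb (s x t : ℝ) (w : ℝ × ℝ) :
    sin (2 * π * (t - s)) * dot (unit x) w =
      sin (2 * π * (t - x)) * dot (unit s) w + sin (2 * π * (x - s)) * dot (unit t) w := by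
  unfold unit dot
  simp only [mul_sub, sin_sub]
  ring

lemma arc_isOpen [NeZero n] (v : ZMod n → ℤ × ℤ) (z : ℤ × ℤ) : IsOpen (arc v z) := by
  have : arc v z = ⋂ k, {s | dot (unit s) (toR (v k)) < dot (unit s) (toR z)} := by
    ext s; simp [arc]
  rw [this]
  refine isOpen_iInter_of_finite fun k => isOpen_lt ?_ ?_
  · unfold dot unit; fun_prop
  · unfold dot unit; fun_prop

lemma exists_polar {a : ℝ × ℝ} (ha : a ≠ 0) : ∃ ρ > 0, ∃ s : ℝ, ∀ x, dot a x = ρ * dot (unit s) x := by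
  obtain ⟨w, hw⟩ : ∃ w : ℂ, w = ⟨a.1, a.2⟩ := ⟨_, rfl⟩
  have hw0 : w ≠ 0 := by
    rintro rfl
    apply ha
    have h1 := congrArg Complex.re hw
    have h2 := congrArg Complex.im hw
    simp at h1 h2
    ext <;> simp [← h1, ← h2]
  refine ⟨‖w‖, norm_pos_iff.mpr hw0, Complex.arg w / (2 * π), fun x => ?_⟩
  have hpi : 2 * π * (Complex.arg w / (2 * π)) = Complex.arg w := by
    field_simp
  have h1 := Complex.norm_mul_cos_arg w
  have h2 := Complex.norm_mul_sin_arg w
  have h3 : w.re = a.1 := by rw [hw]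
  have h4 : w.im = a.2 := by rw [hw]
  unfold unit dot
  rw [hpi]
  simp only
  rw [← h3, ← h4]
  linear_combination (-x.1) * h1 - x.2 * h2

lemma arc_nonempty {v : ZMod n → ℤ × ℤ} (hv : IsPolygon n v) {z : ℤ × ℤ} (hz : toR z ∉ poly v) :
    (arc v z).Nonempty := by
  rw [mem_poly_iff hv] at hz
  push Not at hz
  obtain ⟨i, hi⟩ := hz
  have hkey : ∀ x : ℝ × ℝ, side v i x =
      dot (-(edge v i).2, (edge v i).1) x - dot (-(edge v i).2, (edge v i).1) (toR (v i)) := by
    intro x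
    simp only [side_eq, det, dot, Prod.fst_sub, Prod.snd_sub]
    ring
  have hdot : ∀ k, dot ((edge v i).2, -(edge v i).1) (toR (v k)) <
      dot ((edge v i).2, -(edge v i).1) (toR z) := by
    intro k
    have h1 := side_nonneg hv i k
    rw [hkey] at h1 hi
    simp only [dot] at *
    linarith
  have ha : ((edge v i).2, -(edge v i).1) ≠ (0 : ℝ × ℝ) := by
    intro h
    have h1 := hdot i
    rw [h] at h1
    simp [dot] at h1
  obtain ⟨ρ, hρ, s, hs⟩ := exists_polar ha
  refine ⟨s, fun k => ?_⟩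
  have h1 := hdot k
  rw [hs, hs] at h1
  exact lt_of_mul_lt_mul_left h1 hρ.le

lemma arc_spec [NeZero n] {v : ZMod n → ℤ × ℤ} (hv : IsPolygon n v) {z : ℤ × ℤ}
    (hz : toR z ∉ poly v) :
    ∃ l r : ℝ, l < r ∧ ∀ s, s ∈ arc v z ↔ ∃ j : ℤ, l + j < s ∧ s < r + j := by
  refine exists_arc (arc_isOpen v z) (arc_nonempty hv hz) ?_ ?_ ?_
  · intro s
    simp only [arc, Set.mem_ofPred_eq, unit_add_one]
  · intro s hs hs2
    have h1 := hs 0
    have h2 := hs2 0
    rw [dot_unit_half, dot_unit_half] at h2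
    linarith
  · intro s hs t ht x hsx hxt hst k
    rcases eq_or_lt_of_le hsx with rfl | hsx
    · exact hs k
    rcases eq_or_lt_of_le hxt with rfl | hxt
    · exact ht k
    have e := dot_unit_comb s x t (toR (v k))
    have e' := dot_unit_comb s x t (toR z)
    have hpos : ∀ u : ℝ, 0 < u → u < 1 / 2 → 0 < sin (2 * π * u) := by
      intro u h1 h2
      refine sin_pos_of_pos_of_lt_pi (by positivity) ?_
      nlinarith [pi_pos]
    have p1 := hpos (t - s) (by linarith) hst
    have p2 := hpos (t - x) (by linarith) (by linarith)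
    have p3 := hpos (x - s) (by linarith) (by linarith)
    have h1 := mul_lt_mul_of_pos_left (hs k) p2
    have h2 := mul_lt_mul_of_pos_left (ht k) p3
    have h3 : sin (2 * π * (t - s)) * dot (unit x) (toR (v k)) <
        sin (2 * π * (t - s)) * dot (unit x) (toR z) := by
      rw [e, e']; linarith
    exact lt_of_mul_lt_mul_left h3 p1.le

/-- The min-max theorem for realizability. -/
theorem exists_packing {m n : ℕ} (hmn : m + 2 ≤ n) {v : ZMod n → ℤ × ℤ} (hv : IsPolygon n v)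
    (hnr : ¬ Realizable m (poly v)) :
    ∃ S : Finset (ℤ × ℤ), (∀ z ∈ S, z ∈ near v) ∧ ∃ q : ℕ, (m + 1) * q < S.card ∧
      ∀ a : ℝ × ℝ, ∀ F ⊆ S, (∀ z ∈ F, ∀ k, dot a (toR (v k)) < dot a (toR z)) → F.card ≤ q := by
  classical
  have : NeZero n := ⟨by omega⟩
  have hfin := near_finite hv
  have hspec : ∀ z : ℤ × ℤ, ∃ l r : ℝ, toR z ∉ poly v →
      l < r ∧ ∀ s, s ∈ arc v z ↔ ∃ j : ℤ, l + j < s ∧ s < r + j := by
    intro z
    by_cases hz : toR z ∈ poly v
    · exact ⟨0, 0, fun h => (h hz).elim⟩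
    · obtain ⟨l, r, h⟩ := arc_spec hv hz
      exact ⟨l, r, fun _ => h⟩
  choose l r hlr using hspec
  have hnot : ∀ y : Fin (m + 1) → ℝ, ∃ z ∈ hfin.toFinset,
      ∀ i, ∀ j : ℤ, ¬ (l z + j < y i ∧ y i < r z + j) := by
    intro y
    by_contra hcon
    push Not at hcon
    apply hnr
    have hcut : ∀ z : ℤ × ℤ, toR z ∉ poly v → ∃ j : Fin (m + 1),
        ∀ k, dot (unit (y j)) (toR (v k)) < dot (unit (y j)) (toR z) := by
      intro z hz
      obtain ⟨M, hM⟩ : ∃ M : ℕ, (∑ l, max 0 (-side v l (toR z))) < 2 ^ M :=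
        pow_unbounded_of_one_lt _ (by norm_num)
      obtain ⟨z', hz', hdom⟩ := dominate hv M z hz hM
      obtain ⟨i, j, h1, h2⟩ := hcon z' (by simpa using hz')
      have h3 : y i ∈ arc v z' := ((hlr z' hz'.1).2 _).mpr ⟨j, h1, h2⟩
      refine ⟨i, ?_⟩
      obtain ⟨k0, hk0⟩ := Finite.exists_max (fun k : ZMod n => dot (unit (y i)) (toR (v k)))
      intro k
      by_contra hc
      push Not at hc
      have h4 := hdom (unit (y i)) (dot (unit (y i)) (toR (v k0))) hk0 (hc.trans (hk0 k))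
      have h5 := h3 k0
      linarith
    obtain ⟨Q, hQ, hmeet⟩ := fits_of_cut hv _ hcut
    obtain ⟨Q', hQ', hgon⟩ := exact_sides hv (K := m + 1) (by omega) hQ hmeet
    obtain ⟨h1, h2⟩ := hQ'.spec
    exact ⟨Q', hgon, h1, h2⟩
  obtain ⟨S, hS, q, hq, hdepth⟩ := roundup hfin.toFinset l r
    (fun z hz => (hlr z ((hfin.mem_toFinset.mp hz).1)).1) (m + 1) hnot
  have hSnear : ∀ z ∈ S, z ∈ near v := fun z hz => hfin.mem_toFinset.mp (hS hz)
  refine ⟨S, hSnear, q, hq, fun a F hF ha => ?_⟩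
  by_cases ha0 : a = 0
  · have : F = ∅ := by
      rw [Finset.eq_empty_iff_forall_notMem]
      intro z hz
      have h1 := ha z hz 0
      rw [ha0] at h1
      simp [dot] at h1
    rw [this]; simp
  · obtain ⟨ρ, hρ, s, hs⟩ := exists_polar ha0
    refine hdepth s F hF fun z hz => ?_
    rw [← (hlr z (hSnear z (hF hz)).1).2]
    intro k
    have h1 := ha z hz k
    rw [hs, hs] at h1
    exact lt_of_mul_lt_mul_left h1 hρ.le

/-- The easy direction. -/
theorem not_realizable_of_packing {m n : ℕ} (v : ZMod n → ℤ × ℤ)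
    (S : Finset (ℤ × ℤ)) (hS : ∀ z ∈ S, toR z ∉ poly v) (q : ℕ) (hq : (m + 1) * q < S.card)
    (hdepth : ∀ a : ℝ × ℝ, ∀ F ⊆ S, (∀ z ∈ F, ∀ k, dot a (toR (v k)) < dot a (toR z)) →
      F.card ≤ q) : ¬ Realizable m (poly v) := by
  classical
  rintro ⟨Q, hgon, hP, hconv⟩
  obtain ⟨b, c, rfl⟩ := hgon.2.2.1
  have hv0 : ∀ j k, dot (b j) (toR (v k)) ≤ c j := fun j k =>
    interior_subset (hP (vertex_mem v k)) j
  have h2 : ∀ z : S, ∃ j, c j < dot (b j) (toR z.1) := by
    intro z
    by_contra hcon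
    push Not at hcon
    apply hS z.1 z.2
    rw [← hconv]
    exact subset_convexHull ℝ _ ⟨hcon, z.1, rfl⟩
  choose g hg using h2
  have hcard : (Finset.univ : Finset (Fin (m + 1))).card * q < (Finset.univ : Finset S).card := by
    simpa using hq
  obtain ⟨j, -, hj⟩ := Finset.exists_lt_card_fiber_of_mul_lt_card_of_maps_to
    (f := g) (fun z _ => Finset.mem_univ (g z)) hcard
  have h3 := hdepth (b j) ((Finset.univ.filter fun z : S => g z = j).map
    ⟨Subtype.val, Subtype.val_injective⟩) (by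
      intro z hz
      simp only [Finset.mem_map, Finset.mem_filter, Finset.mem_univ, true_and,
        Function.Embedding.coeFn_mk] at hz
      obtain ⟨w, -, rfl⟩ := hz
      exact w.2) (by
      intro z hz k
      simp only [Finset.mem_map, Finset.mem_filter, Finset.mem_univ, true_and,
        Function.Embedding.coeFn_mk] at hz
      obtain ⟨w, hw, rfl⟩ := hz
      have h4 := hg w
      rw [hw] at h4
      exact (hv0 j k).trans_lt h4)
  rw [Finset.card_map] at h3
  omega

end Y930.Sail
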